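import Mathlib
import Pool.Agent.P.MP_e9de1a_an.Defs
import Pool.Agent.P.MP_e9de1a_an.Main

set_option autoImplicit false

open Pool.Agent.P.MP_e9de1a_an

theorem Pool.Agent.Results.MP_e9de1a_an.NoLimit.result :
    ∃ (H : ℝ → ℝ → ℝ) (g : ℝ → ℝ) (z T : ℝ),
    ContDiff ℝ 2 (Function.uncurry H) ∧ (∀ x p, H (x + 1) p = H x p) ∧
    (∀ x, ConvexOn ℝ Set.univ (H x)) ∧
    (∀ M : ℝ, ∃ R : ℝ, ∀ x p, R ≤ |p| → M ≤ H x p ^ 2 / 2 + deriv (fun y => H y p) x * p) ∧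
    ContDiff ℝ 2 g ∧ (∀ x, g (x + 1) = g x) ∧ 0 < T ∧
    (∀ ε ∈ Set.Ioo (0 : ℝ) 1, ∃ u σ, IsViscousSol H g ε u ∧ IsAdjointSol H ε u z T σ) ∧
    ∃ (ψ : ℝ → ℝ → ℝ → ℝ) (a b : ℝ),
      Continuous (fun w : ℝ × ℝ × ℝ => ψ w.1 w.2.1 w.2.2) ∧
      (∀ x p t, ψ (x + 1) p t = ψ x p t) ∧ a < b ∧
      ∀ u σ : ℝ → ℝ → ℝ → ℝ,
        (∀ ε ∈ Set.Ioo (0 : ℝ) 1,
          IsViscousSol H g ε (u ε) ∧ IsAdjointSol H ε (u ε) z T (σ ε)) →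
        (∃ᶠ ε in nhdsWithin (0 : ℝ) (Set.Ioi 0),
          (∫ t in (0 : ℝ)..T, ∫ x in (0 : ℝ)..1, ψ x (dx (u ε) x t) t * σ ε x t) < a) ∧
        (∃ᶠ ε in nhdsWithin (0 : ℝ) (Set.Ioi 0),
          b < ∫ t in (0 : ℝ)..T, ∫ x in (0 : ℝ)..1, ψ x (dx (u ε) x t) t * σ ε x t) :=
  main
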